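import Pool.Agent.Work.MP_7453a1_st.Word

set_option autoImplicit false

/-!
Certificates for inequalities between the denominators along a word.
-/

namespace Pool.Agent.Work.MP_7453a1_su

open Pool.Agent.Work.MP_7453a1_nt_norm Pool.Agent.Work.MP_7453a1_nt_sup
open Pool.Agent.Work.MP_7453a1_st

/-- Coordinates of a linear form in the denominators. -/
def ev2 (P : List (List ℤ)) : List (ℤ × ℕ) → Option (List ℤ)
  | [] => some []
  | a :: l =>
    match P[a.2]?, ev2 P l with
    | some c, some r => some (ladd (lmul a.1 c) r)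
    | _, _ => none

/-- Monotonicity. -/
def mono : List (List ℤ) → List (Option (List ℤ) × Bool)
  | A :: B :: L => (some (ladd B (lmul (-1) A)), true) :: mono (B :: L)
  | _ => []

/-- The conditions along a word. -/
def wC : List Letter → ℕ → List (Bool × List (ℤ × ℕ))
  | [], _ => []
  | l :: w, j => l.conds.map (fun c => (c.1, c.2.map (fun a => (a.1, j + a.2)))) ++
    wC w (j + l.step)

/-- The constraints. -/
def lbase (P : List (List ℤ)) (cs : List (Bool × List (ℤ × ℕ))) :
    List (Option (List ℤ) × Bool) :=
  (P[0]?, true) :: (mono P ++ cs.map (fun c => (ev2 P c.2, c.1)))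

/-- Combination of constraints. -/
def lgather (ctx : List (Option (List ℤ) × Bool)) :
    List (ℕ × ℕ) → List ℤ → Bool → List ℤ × Bool
  | [], acc, b => (acc, b)
  | (i, a) :: l, acc, b =>
    match ctx[i]? with
    | some (some c, s) => lgather ctx l (ladd acc (lmul (a : ℤ) c)) (b || (s && (a != 0)))
    | _ => lgather ctx l acc b

/-- The combination is contradictory. -/
def lfarkas (ctx : List (Option (List ℤ) × Bool)) (l : List (ℕ × ℕ)) : Bool :=
  let c := lgather ctx l [] false
  c.2 && lzero c.1

/-- The constraint holds. -/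
def LH (f : ℕ → ℝ) (v : List ℤ) (s : Bool) : Prop := if s then 0 < dot v f else 0 ≤ dot v f

lemma LH.nonneg {f : ℕ → ℝ} {v : List ℤ} {s : Bool} (h : LH f v s) : 0 ≤ dot v f := by
  unfold LH at h
  split_ifs at h
  · exact h.le
  · exact h

lemma lgather_holds {f : ℕ → ℝ} {ctx : List (Option (List ℤ) × Bool)}
    (h : ∀ c s, (some c, s) ∈ ctx → LH f c s) (l : List (ℕ × ℕ)) (acc : List ℤ) (b : Bool)
    (hacc : LH f acc b) : LH f (lgather ctx l acc b).1 (lgather ctx l acc b).2 := by
  induction l generalizing acc b with
  | nil => exact hacc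
  | cons p l ih =>
    obtain ⟨i, a⟩ := p
    unfold lgather
    split
    · next c s hc =>
      apply ih
      have h1 : LH f c s := h c s (List.mem_of_getElem? hc)
      have h2 := h1.nonneg
      have h3 := hacc.nonneg
      have ha : (0 : ℝ) ≤ ((a : ℤ) : ℝ) := by positivity
      unfold LH
      simp only [dot_ladd, dot_lmul]
      split_ifs with hs
      · simp only [Bool.or_eq_true, Bool.and_eq_true, bne_iff_ne, ne_eq] at hs
        rcases hs with hs | ⟨hs, hs'⟩
        · unfold LH at hacc
          rw [if_pos hs] at hacc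
          nlinarith [mul_nonneg ha h2]
        · unfold LH at h1
          rw [if_pos hs] at h1
          have : (0 : ℝ) < ((a : ℤ) : ℝ) := by
            have : 0 < a := Nat.pos_of_ne_zero hs'
            exact_mod_cast this
          nlinarith [mul_pos this h1]
      · nlinarith [mul_nonneg ha h2]
    · exact ih acc b hacc

lemma lfarkas_false {f : ℕ → ℝ} {ctx : List (Option (List ℤ) × Bool)}
    (h : ∀ c s, (some c, s) ∈ ctx → LH f c s) (l : List (ℕ × ℕ)) (hl : lfarkas ctx l = true) :
    False := by
  have h1 := lgather_holds h l [] false (by simp [LH, dot])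
  simp only [lfarkas, Bool.and_eq_true] at hl
  unfold LH at h1
  rw [if_pos hl.1, dot_lzero _ _ hl.2] at h1
  exact lt_irrefl _ h1

section
variable {z : ℕ → Pt 2} {s : ℕ}

lemma den_lc (c : List ℤ) (g : ℕ → Pt 2) : den (lc c g) = dot c (fun i => den (g i)) := map_lc _ _ _

lemma ev2_val {P : List (List ℤ)} {g : ℕ → Pt 2} (hP : KL z s g P) {ms : List (ℤ × ℕ)}
    {v : List ℤ} (hv : ev2 P ms = some v) : dot v (fun i => den (g i)) = dval z s ms := by
  induction ms generalizing v with
  | nil =>
    simp only [ev2, Option.some.injEq] at hv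
    subst hv
    rfl
  | cons a l ih =>
    unfold ev2 at hv
    split at hv
    · next c r hc hr =>
      simp only [Option.some.injEq] at hv
      subst hv
      rw [dot_ladd, dot_lmul, ih hr, ← den_lc, ← hP _ _ hc]
      rfl
    · simp at hv

lemma mono_holds {P : List (List ℤ)} {g : ℕ → Pt 2} (hm : ∀ k, (z k).1 < (z (k + 1)).1)
    (hP : KL z s g P) : ∀ c b, (some c, b) ∈ mono P → LH (fun i => den (g i)) c b := by
  induction P generalizing s with
  | nil => intro c b hc; simp [mono] at hc
  | cons A P ih =>
    cases P with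
    | nil => intro c b hc; simp [mono] at hc
    | cons B L =>
      have hP' : KL z (s + 1) g (B :: L) := by
        intro t c hc
        have := hP (t + 1) c (by simpa using hc)
        rwa [show s + 1 + t = s + (t + 1) by ring]
      intro c b hc
      rw [mono, List.mem_cons] at hc
      rcases hc with hc | hc
      · simp only [Prod.mk.injEq, Option.some.injEq] at hc
        obtain ⟨rfl, rfl⟩ := hc
        unfold LH
        rw [if_pos rfl, dot_ladd, dot_lmul, ← den_lc, ← den_lc,
          ← hP 0 A (by simp), ← hP 1 B (by simp), den_apply, den_apply]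
        have h2 : ((z (s + 0)).1 : ℝ) < ((z (s + 1)).1 : ℝ) := by exact_mod_cast hm s
        push_cast
        linarith
      · exact ih hP' c b hc

/-- Shifted condition. -/
def sh (j : ℕ) (c : Bool × List (ℤ × ℕ)) : Bool × List (ℤ × ℕ) :=
  (c.1, c.2.map (fun a => (a.1, j + a.2)))

lemma condH_sh {j : ℕ} {c : Bool × List (ℤ × ℕ)} (h : condH z (s + j) c) :
    condH z s (sh j c) := by
  unfold condH at h ⊢
  have e1 : dval z s (c.2.map fun a => (a.1, j + a.2)) = dval z (s + j) c.2 :=
    foldr_shift z s j c.2
  simp only [sh, e1]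
  exact h

lemma wC_holds {w : List Letter} {j : ℕ} (hw : Rel z (s + j) w) : ∀ c ∈ wC w j, condH z s c := by
  induction w generalizing j with
  | nil => intro c hc; simp [wC] at hc
  | cons l w ih =>
    intro c hc
    rw [wC, List.mem_append] at hc
    rcases hc with hc | hc
    · obtain ⟨c', hc', rfl⟩ := List.mem_map.mp hc
      exact condH_sh (hw.1.2 c' hc')
    · exact ih (by rw [← Nat.add_assoc]; exact hw.2) c hc

/-- Refutation of a system of inequalities between the denominators. -/
theorem lite_refute {P : List (List ℤ)} {g : ℕ → Pt 2} (hpos : ∀ k, 0 < (z k).1)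
    (hm : ∀ k, (z k).1 < (z (k + 1)).1) (hP : KL z s g P) {cs : List (Bool × List (ℤ × ℕ))}
    (hcs : ∀ c ∈ cs, condH z s c) {l : List (ℕ × ℕ)} (hl : lfarkas (lbase P cs) l = true) :
    False := by
  refine lfarkas_false (f := fun i => den (g i)) ?_ l hl
  intro c b hc
  rw [lbase, List.mem_cons, List.mem_append] at hc
  rcases hc with hc | hc | hc
  · simp only [Prod.mk.injEq] at hc
    obtain ⟨h1, rfl⟩ := hc
    unfold LH
    rw [if_pos rfl, ← den_lc, ← hP 0 c h1.symm, den_apply]
    exact_mod_cast hpos _
  · exact mono_holds hm hP c b hc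
  · obtain ⟨c', hc', e⟩ := List.mem_map.mp hc
    simp only [Prod.mk.injEq] at e
    obtain ⟨e1, rfl⟩ := e
    have h1 := hcs c' hc'
    unfold condH at h1
    unfold LH
    rw [ev2_val hP e1]
    exact h1

end

end Pool.Agent.Work.MP_7453a1_su
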